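import Pool.Agent.H55.MX.Fin3

/-!
# Mazur's question for varieties with many automorphisms
(helper55, with helpers 32, 46, 52, 64, 72, 85, 95)

`K` is a number field and `X ⊂ ℙⁿ` is a projective variety over `K`, possibly singular, `π : X → ℙᴺ` a morphism which is an
isomorphism onto its image outside of a closed subset `E` of `X` (for example `π` the inclusion and `E` empty), and `P i`,
`i < r`, and `Q j`, `j < s`, `r ≠ s`, are automorphisms of `X` which map `E` to itself, such that
`⨂ (P i)^* π^* O(1) ≅ ⨂ (Q j)^* π^* O(1)`.  Let `Γ` be the group generated by the `P i` and `Q j`.  The case of surfaces is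
the main one.  Examples:

* Each K3 surface `X` over `K` with an automorphism `f` over `K` of positive entropy, `E` the union of the finitely
  many curves which are periodic under `f`.  Let `S` be the minimal polynomial of the dynamical degree (`S` is
  reciprocal, and `S(1) ≠ 0`).  There is a nef and big line bundle `H` killed by `S(f^*)` (near the sum of the two
  eigenclasses; it is zero just on the curves of `E`); `π` is given by a multiple of `H`, and `P` and `Q` are given
  by the positive and negative coefficients of `S`.  The curves in `E` are smooth rational (over the algebraic closure),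
  so the `K`-points of `E` are parametrized by finitely many polynomial maps.
* Wehler's K3 surfaces in `ℙ² × ℙ²` with their two involutions: `P = (σ₁, σ₂)`, `Q = (1, 1, 1, 1)`.
* A K3 surface such that no nonzero class in `Pic X` is fixed by the group of the automorphisms, for all
  its projective embeddings of large degree, and `π` the inclusion, `E` empty.  For example all K3 surfaces of
  Picard number two with infinitely many automorphisms.

These surfaces have in general no fibration by curves of genus one and no group structure.

A point `x` of `X(K_v)` is called recurrent if for each neighbourhood of `x` the elements of `Γ` which map `x` into this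
neighbourhood generate a subgroup of finite index.  We prove:

* At every place `v` of `K` the local Zariski closure `Z` of `X(K)` at each recurrent point is the local Zariski closure of
  `E(K)`, or a point of `X(K)` with finite orbit under `Γ`, or of dimension at least two and stable under a
  subgroup of finite index of `Γ`.  The same holds at all points if the family of the local Zariski closures is
  finite.
* At all but finitely many places each point is recurrent.
* There are only finitely many points of `X(K)` with finite orbit outside of `E`.

If `X` is an irreducible surface and `E` as in the first example, this gives that all the local Zariski closures of `X(K)`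
at all the points of `X(K_v)` for all but finitely many places `v` belong to one finite family.  And at every
place `v` the family of the local Zariski closures is finite if and only if `X(K)` is Zariski dense in `X` near each
point of `X(K)` outside of `E` with infinite orbit (this holds near the recurrent ones).

Idea of the proof.  At a place of good reduction `Γ` permutes the finitely many classes of the points modulo each
power of the prime, so the set of the `K`-points in a small disc is stable under a subgroup of finite index.
At a recurrent point `γ(Z) ⊆ Z`, and so `γ(Z) = Z`, for enough `γ`.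
We show that an infinite set of `K`-points outside of `E` which is stable under a subgroup `Γ'` of finite index does not
lie on a curve.  Otherwise there is an irreducible curve `C` with infinitely many such points which is stable
under some `Γ'`; by a quantitative elimination argument the ratio of the heights of `π(γ(x))` and `π(x)` for `x ∈ C(K)`
has a limit `ρ(γ)`, a rational number with bounded denominator, `ρ(γ γ') = ρ(γ)` for `γ' ∈ Γ'`, and the relation gives
`∑ ρ(P i γ) = ∑ ρ(Q j γ)`.  The sum over the cosets of `Γ'` gives `r = s`.
-/

set_option autoImplicit false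

open MvPolynomial Pool.Agent.H55.MG Pool.Agent.H55.MX
open Pool.Agent.H55.MZ (Poly NoZero Homog localIdeal pointIdeal)
open scoped LinearAlgebra.Projectivization

namespace Pool.Agent.Results.MP_f9f755_nt.AutomorphismGroups

variable {K : Type} [Field K] {n : ℕ}

/-- `f` is an automorphism of the pair `(X, E)`: the permutation `f` of `X(K)` and its inverse are given by forms on
`X`, and `f` maps the `K`-points of `E` to the `K`-points of `E`. -/
def IsAut (I E : Ideal (Poly K n)) (f : Equiv.Perm (RatPt I)) : Prop :=
  Regular I f ∧ Regular I f.symm ∧ ∀ p, On E (f p) ↔ On E p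

/-- The orbit of the point `p` of `X(K)` under the group generated by the `P i` and the `Q j` is finite. -/
def FinOrb {I : Ideal (Poly K n)} {r s : ℕ} (P : Fin r → Equiv.Perm (RatPt I)) (Q : Fin s → Equiv.Perm (RatPt I))
    (p : RatPt I) : Prop :=
  (MulAction.orbit (Subgroup.closure (Set.range P ∪ Set.range Q)) p).Finite

/-- There are only finitely many local Zariski closures of `X(K)` at the points over `L`. -/
def FinMany (I : Ideal (Poly K n)) {L : Type} [NormedField L] (σ : K →+* L) : Prop :=
  {J : Ideal (Poly K n) | ∃ x : Fin (n + 1) → L, x ≠ 0 ∧ J = localIdeal I σ x}.Finite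

/-- The point `x` over `L` is the point `p` of `X(K)`, and the local Zariski closure of `X(K)` at `x` is this point. -/
def IsPoint (I : Ideal (Poly K n)) {L : Type} [NormedField L] (σ : K →+* L) (x : Fin (n + 1) → L) (p : RatPt I) :
    Prop :=
  (∃ c : L, c ≠ 0 ∧ x = fun i => c * σ (vec p i)) ∧ localIdeal I σ x = pointIdeal (vec p)

/-- The variety of `J` has dimension at least two, it is stable (on `K`-points) under a subgroup of finite index of
`Γ`, and it is `X` if `X` is irreducible of dimension at most two. -/
def Large {I : Ideal (Poly K n)} (Γ : Subgroup (Equiv.Perm (RatPt I))) (J : Ideal (Poly K n)) : Prop :=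
  DimTwo J ∧ Periodic Γ J ∧ (IsSurface I → J = I)

/-- There are only finitely many closed subsets of `X` which have dimension at least two, contain a dense set of
`K`-points and are stable (on `K`-points) under a subgroup of finite index of `Γ`. -/
def FinPer {I : Ideal (Poly K n)} (Γ : Subgroup (Equiv.Perm (RatPt I))) : Prop :=
  {J : Ideal (Poly K n) | Homog J ∧ IsVan I J ∧ DimTwo J ∧ Periodic Γ J}.Finite

/-- **Theorem.**  Let `K` be a number field, `I ≤ E` homogeneous ideals of `K[x₀, …, x_n]`, `X ⊃ E` their varieties in
`ℙⁿ`, `π : X → ℙᵐ` a morphism which has outside of `E` an inverse given by forms.  Let `P i`, `i < r`, and `Q j`, `j < s`,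
`r ≠ s`, be automorphisms of `(X, E)` with `⨂ (P i)^* π^* O(1) ≅ ⨂ (Q j)^* π^* O(1)`, and `Γ = grp P Q` the group generated
by them.  Then

* only finitely many points of `X(K)` outside of `E` have a finite orbit under `Γ`;
* let `L ⊃ K` be a normed field and `x` a recurrent point over `L`, or `x` any point over `L` if the local Zariski
  closures of `X(K)` at the points over `L` form a finite set; the local closure of `X(K)` at `x` is the local closure
  of `E(K)` at `x`, or a point of `X(K)` outside of `E` with finite orbit, or large;
* let `L ⊃ K` be a normed field.  The local closures of `X(K)` form a finite set if they are `X` at all points of `X(K)`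
  outside of `E` with infinite orbit, or if all points over `L` are recurrent and `X` is an irreducible surface or
  there are only finitely many periodic closed subsets as in `FinPer`; here we assume that the local closures of
  `E(K)` form a finite set, or that the `K`-points of `E` are the values of finitely many polynomial maps and the
  norm is nontrivial on `K`;
* there is `N ≠ 0` such that for every nonarchimedean local field `L ⊃ K` in which `N` is a unit all points over `L` are
  recurrent; if `X` is an irreducible surface (or there are only finitely many periodic closed subsets) and the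
  `K`-points of `E` are the values of finitely many polynomial maps then all local closures of `X(K)` at the points
  over all these fields `L` belong to one finite set. -/
theorem result {K : Type} [Field K] [NumberField K] {n m : ℕ} (I E : Ideal (Poly K n)) (_ : Homog I) (_ : Homog E)
    (_ : I ≤ E) (π : RatPt I → ℙ K (Fin (m + 1) → K)) (_ : RegularTo I π) (_ : InvOut I E π)
    {r s : ℕ} (_ : r ≠ s) (P : Fin r → Equiv.Perm (RatPt I)) (Q : Fin s → Equiv.Perm (RatPt I))
    (_ : ∀ i, IsAut I E (P i)) (_ : ∀ j, IsAut I E (Q j))
    (_ : LinEquivTo I (fun i p => π (P i p)) (fun j p => π (Q j p))) :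
    {p : RatPt I | ¬ On E p ∧ FinOrb P Q p}.Finite ∧
    (∀ (L : Type) [NormedField L] (σ : K →+* L) (x : Fin (n + 1) → L), x ≠ 0 →
      Recurrent (grp P Q) σ x ∨ FinMany I σ → localIdeal I σ x = localIdeal E σ x ∨
        (∃ p : RatPt I, ¬ On E p ∧ FinOrb P Q p ∧ IsPoint I σ x p) ∨ Large (grp P Q) (localIdeal I σ x)) ∧
    (∀ (L : Type) [NormedField L] (σ : K →+* L),
      (∀ p : RatPt I, ¬ On E p → ¬ FinOrb P Q p → localIdeal I σ (fun i => σ (vec p i)) = I) ∨
        ((∀ x : Fin (n + 1) → L, x ≠ 0 → Recurrent (grp P Q) σ x) ∧ (IsSurface I ∨ FinPer (grp P Q))) →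
      FinMany E σ ∨ (Unirat E ∧ ∃ a : K, a ≠ 0 ∧ ‖σ a‖ < 1) → FinMany I σ) ∧
    ∃ N : ℕ, N ≠ 0 ∧
      (∀ (L : Type) [NontriviallyNormedField L] [IsUltrametricDist L] [ProperSpace L] (σ : K →+* L),
        ‖(N : L)‖ = 1 → ∀ x : Fin (n + 1) → L, x ≠ 0 → Recurrent (grp P Q) σ x) ∧
      (Unirat E → IsSurface I ∨ FinPer (grp P Q) → ∃ 𝓕 : Set (Ideal (Poly K n)), 𝓕.Finite ∧
        ∀ (L : Type) [NontriviallyNormedField L] [IsUltrametricDist L] [ProperSpace L] (σ : K →+* L),
          ‖(N : L)‖ = 1 → ∀ x : Fin (n + 1) → L, x ≠ 0 → localIdeal I σ x ∈ 𝓕) := by
  rename_i hI hE hIE hπ hinv hrs hP hQ hPQ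
  have hset : Setting I E π P Q := ⟨hI, hE, hIE, hrs, hπ, hinv, fun i => ⟨(hP i).1, (hP i).2.1⟩,
    fun j => ⟨(hQ j).1, (hQ j).2.1⟩, fun i => (hP i).2.2, fun j => (hQ j).2.2, hPQ⟩
  have hlarge : ∀ {L : Type} [NormedField L] (σ : K →+* L) (x : Fin (n + 1) → L),
      DimTwo (localIdeal I σ x) ∧ Periodic (grp P Q) (localIdeal I σ x) → Large (grp P Q) (localIdeal I σ x) :=
    fun σ x h => ⟨h.1, h.2, fun hs => dimTwo_eq Pool.Agent.H55.MZ.NORM.t hI hs (homog_loc hI σ x)
      (Pool.Agent.H55.MZ.le_localIdeal I σ x) h.1⟩
  have hper : IsSurface I ∨ FinPer (grp P Q) → FinPer (grp P Q) := fun h => h.elim (fun hs => surf_per hI hs _) id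
  refine ⟨hset.finOrb, fun L _ σ x hx hrec => ?_, fun L _ σ h hFE => ?_, ?_⟩
  · rcases hset.trich σ hx (hset.periodic σ hx hrec) with h1 | ⟨p, hpE, hp, h2⟩ | h1
    · exact Or.inl h1
    · exact Or.inr (Or.inl ⟨p, hpE, hp, h2⟩)
    · exact Or.inr (Or.inr (hlarge σ x h1))
  · have hFE' : FinMany E σ := hFE.elim id fun h => unirat_finMany h.1 σ h.2
    rcases h with h | ⟨h1, h2⟩
    · exact hset.suff σ hFE' h
    · obtain ⟨𝓕, hfin, h3⟩ := hset.family hFE' (hper h2)
      refine hfin.subset ?_
      rintro _ ⟨x, hx, rfl⟩
      exact h3 L σ x hx (hset.periodic σ hx (Or.inl (h1 x hx))) ⟨x, hx, rfl⟩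
  · obtain ⟨N, hN, h⟩ := good_recurrent hI (S := Set.range P ∪ Set.range Q)
      ((Set.finite_range P).union (Set.finite_range Q)) hset.aut
    refine ⟨N, hN, h, fun hu hs => ?_⟩
    obtain ⟨𝓔, hfin, h1⟩ := unirat_unif hu
    obtain ⟨𝓕, hfin', h2⟩ := hset.family hfin (hper hs)
    exact ⟨𝓕, hfin', fun L _ _ _ σ hL x hx =>
      h2 L σ x hx (hset.periodic σ hx (Or.inl (h L σ hL x hx))) (h1 L σ (exists_small σ) x)⟩

end Pool.Agent.Results.MP_f9f755_nt.AutomorphismGroups
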