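import Pool.Agent.H55.MX.Tend

/-!
# Mazur's question: local closures are stable under automorphisms which move the point a little
(helper55)

`X ⊂ ℙⁿ` is a projective variety over a number field `K`, possibly singular or reducible.  For a point `x` over a normed
field `L ⊃ K` let `Z_x` be the local Zariski closure of `X(K)` at `x`.  We prove:

* At every place, each `x` has a neighbourhood such that every automorphism `γ` of `X` over `K` which maps `x` into this
  neighbourhood maps `Z_x` to itself.
* If at some place there are only finitely many `Z_x`, as Mazur's question asks, then for each group `Γ` of automorphisms of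
  `X` over `K` all `Z_x` are stable under subgroups of finite index of `Γ`.
* If `Γ` is finitely generated this conclusion holds at all but finitely many places.  So Mazur's question has a
  positive answer at all but finitely many places, with one finite family for all these places, for each
  variety with a finitely generated group `Γ` of automorphisms which has only finitely many periodic closed sets.

There is no condition on the action of `Γ` here; for groups whose action is hyperbolic see `AutomorphismGroups.lean`.

Idea of the proof.  Let `x` be given and let `U` be a neighbourhood such that all points of `X(K)` in `U` are in `Z_x`.  If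
`γ x ∈ U` then `γ` maps the `K`-points near `x` into `U`, so into `Z_x`, and so `γ(Z_x) ⊆ Z_x` as `Z_x` is the smallest closed set
which contains all `K`-points near `x`.  Then `γ(Z_x) = Z_x` as the Zariski topology is Noetherian.  At a place of good
reduction `Γ` permutes the finitely many residue discs of a given radius, so a subgroup of finite index maps `x`
into `U`.  For the second statement, `γ(Z_x) = Z_(γ x)`, so `Γ` acts on the finite set of all `Z_x`.
-/

set_option autoImplicit false

open MvPolynomial Pool.Agent.H55.MG Pool.Agent.H55.MX
open Pool.Agent.H55.MZ (Poly NoZero Homog localIdeal pointIdeal)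
open scoped LinearAlgebra.Projectivization

namespace Pool.Agent.Results.MP_f9f755_nt.StableLocalClosures

variable {K : Type} [Field K] {n : ℕ}

/-- There are only finitely many local Zariski closures of `X(K)` at the points over `L`. -/
def FinMany (I : Ideal (Poly K n)) {L : Type} [NormedField L] (σ : K →+* L) : Prop :=
  {J : Ideal (Poly K n) | ∃ x : Fin (n + 1) → L, x ≠ 0 ∧ J = localIdeal I σ x}.Finite

/-- The automorphism `γ` of `X` maps the point `x` over `L` into the `ε`-neighbourhood of `x`; this is expressed by the
points of `X(K)` near `x` (if there are such points arbitrarily near to `x`). -/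
def MovesLess {I : Ideal (Poly K n)} {L : Type} [NormedField L] (σ : K →+* L) (x : Fin (n + 1) → L) (ε : ℝ)
    (γ : Equiv.Perm (RatPt I)) : Prop :=
  ∃ δ : ℝ, 0 < δ ∧ ∀ w : RatPt I, Nr σ (vec w) x δ → Nr σ (vec (γ w)) x ε

/-- **Theorem.**  Let `K` be a number field and `X ⊂ ℙⁿ` the variety of a homogeneous ideal `I` of `K[x₀, …, x_n]`.

* For every normed field `L ⊃ K` and every point `x` over `L` there is `ε > 0` such that each automorphism `γ` of `X` which
  moves `x` less than `ε` maps the local closure of `X(K)` at `x` to itself.
* Let `S` be a set of automorphisms of `X` and `Γ` the group generated by `S`.  If the local closures of `X(K)` at the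
  points over `L` form a finite set then each of them is stable under a subgroup of finite index of `Γ`.
* Let `S` be finite.  There is `N ≠ 0` such that for every nonarchimedean local field `L ⊃ K` in which `N` is a unit each
  local closure of `X(K)` is stable under a subgroup of finite index of `Γ`.  If there are only finitely many
  closed subsets of `X` with this property which contain a dense set of `K`-points then all local closures of `X(K)`
  at the points over all these fields `L` belong to one finite set. -/
theorem result {K : Type} [Field K] [NumberField K] {n : ℕ} (I : Ideal (Poly K n)) (_ : Homog I) :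
    (∀ (L : Type) [NormedField L] (σ : K →+* L) (x : Fin (n + 1) → L), ∃ ε : ℝ, 0 < ε ∧
      ∀ γ : Equiv.Perm (RatPt I), IsAut I γ → MovesLess σ x ε γ → Stab γ (localIdeal I σ x)) ∧
    (∀ S : Set (Equiv.Perm (RatPt I)), (∀ γ ∈ S, IsAut I γ) → ∀ (L : Type) [NormedField L] (σ : K →+* L),
      FinMany I σ → ∀ x : Fin (n + 1) → L, x ≠ 0 → Periodic (Subgroup.closure S) (localIdeal I σ x)) ∧
    (∀ S : Set (Equiv.Perm (RatPt I)), S.Finite → (∀ γ ∈ S, IsAut I γ) → ∃ N : ℕ, N ≠ 0 ∧
      (∀ (L : Type) [NontriviallyNormedField L] [IsUltrametricDist L] [ProperSpace L] (σ : K →+* L),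
        ‖(N : L)‖ = 1 → ∀ x : Fin (n + 1) → L, x ≠ 0 → Periodic (Subgroup.closure S) (localIdeal I σ x)) ∧
      ({J : Ideal (Poly K n) | Homog J ∧ IsVan I J ∧ Periodic (Subgroup.closure S) J}.Finite →
        ∃ 𝓕 : Set (Ideal (Poly K n)), 𝓕.Finite ∧
          ∀ (L : Type) [NontriviallyNormedField L] [IsUltrametricDist L] [ProperSpace L] (σ : K →+* L),
            ‖(N : L)‖ = 1 → ∀ x : Fin (n + 1) → L, x ≠ 0 → localIdeal I σ x ∈ 𝓕)) := by
  rename_i hI
  refine ⟨fun L _ σ x => rigid hI σ x, fun S hS L _ σ hF x hx => finMany_periodic hI σ hF S hS x hx,
    fun S hfin hS => ?_⟩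
  obtain ⟨N, hN, h⟩ := good_recurrent hI hfin hS
  have hreg : ∀ γ ∈ Subgroup.closure S, RegK I γ ∧ RegK I γ.symm := fun γ hγ =>
    closure_reg REGC.t (fun g hg => ⟨(hS g hg).1.regK, (hS g hg).2.regK⟩) hγ
  have hper : ∀ (L : Type) [NontriviallyNormedField L] [IsUltrametricDist L] [ProperSpace L] (σ : K →+* L),
      ‖(N : L)‖ = 1 → ∀ x : Fin (n + 1) → L, x ≠ 0 → Periodic (Subgroup.closure S) (localIdeal I σ x) :=
    fun L _ _ _ σ hL x hx => recurrent_periodic hI _ hreg σ x (h L σ hL x hx)
  exact ⟨N, hN, hper, fun hF => ⟨_, hF, fun L _ _ _ σ hL x hx =>
    ⟨homog_loc hI σ x, isVan_loc hI σ x, hper L σ hL x hx⟩⟩⟩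

end Pool.Agent.Results.MP_f9f755_nt.StableLocalClosures
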