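import Pool.Agent.H58K3.Form

/-!
# Mazur's question for K3 surfaces with two fibrations by curves of genus one (helper58)

`K` is a number field, `F` is a form of bidegree `(4,4)` in `x = (x₀, x₁)` and `y = (y₀, y₁)` over
`K` such that the curve `F = 0` in `ℙ¹ × ℙ¹` is smooth, and `X` is the K3 surface `w² = F(x, y)`.
Its two projections to `ℙ¹` are fibrations by curves of genus one.  A point of `X` over a field
`E` is given by `w ∈ E` and nonzero vectors `x, y`, up to `(w, x, y) ~ (c² d² w, c x, d y)`.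

We assume that each of the two fibrations has a further divisor class over `K`, given by

* a section `x ↦ (τ(x), x, p(x))`, where `p` has the degree `e`, or
* a family `Q(x; y, g) = ∑ P_{jk}(x) y^(j) g^(k)` of curves of bidegree `(2,2)` (`y^(j)` and
  `g^(k)` are the monomials of degree two, `deg P_{jk} = M - s (2 - k)`) whose discriminant as a
  quadratic form in `g` is `T(x)² F(x, y)`; this is a divisor class of degree two on the fibres,

and that the number of reducible fibres (for a family: of the reducible fibres with a component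
`g = const`) is less than `8 + 4 e`, or less than `2 (M - s)`.  There is no condition on the fibres
if this number is at least `14`, for instance for sections with `e ≥ 2`.

Then there is a finite set `T` of `K`-rational points such that for all places `v` of `K` and all
points `p` of `X(K_v)` the local Zariski closure `Z_p` of `X(K)` is empty, or `X`, or the point `p`,
which lies in `T`.

Idea of the proof.  The fibre over `x` is a curve of bidegree `(2,2)` in `ℙ¹ × ℙ¹`, and a point on
it generates a zigzag orbit, by the two involutions.  The heights on the two factors satisfy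
inequalities which show that all these orbits are infinite if the height of `x` is large: the sum
of the gains in two steps is `2 (M - s) - k` times the height of `x`, up to a constant, where `k` is
the number of components `g = const` of the fibres.  In the `v`-adic topology the orbit of a point
accumulates at the point, as the orbits of a translation on a compact group do.  So the rational
points on all but finitely many fibres are limits of other rational points on the same fibre, for
both fibrations.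
-/

set_option autoImplicit false

namespace Pool.Agent.Results.MP_f9f755_nt.TwoFibrationsK3

open MvPolynomial Pool.Agent.H58K3 Pool.Agent.Y720.MZ

universe u v

section defs

variable {K : Type u} [Field K]

/-- The monomials of degree two in the second pair of variables. -/
noncomputable def quad (j : Fin 3) : MvPolynomial (Fin 2 ⊕ Fin 2) K :=
  ![X (Sum.inr 0) ^ 2, X (Sum.inr 0) * X (Sum.inr 1), X (Sum.inr 1) ^ 2] j

/-- The family `Q(x; y, g) = ∑ P_{jk}(x) y^(j) g^(k)` of curves of bidegree `(2,2)`, as a quadratic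
form in `g`, has the coefficients `A_k(x, y) = ∑_j P_{jk}(x) y^(j)`. -/
noncomputable def formA (P : Fin 3 → Fin 3 → MvPolynomial (Fin 2) K) (k : Fin 3) :
    MvPolynomial (Fin 2 ⊕ Fin 2) K := ∑ j, rename Sum.inl (P j k) * quad j

/-- The family `Q(x; y, g) = ∑ P_{jk}(x) y^(j) g^(k)` of curves of bidegree `(2,2)`, as a quadratic
form in `y`, has the coefficients `B_j(x, g) = ∑_k P_{jk}(x) g^(k)`. -/
noncomputable def formB (P : Fin 3 → Fin 3 → MvPolynomial (Fin 2) K) (j : Fin 3) :
    MvPolynomial (Fin 2 ⊕ Fin 2) K := ∑ k, rename Sum.inl (P j k) * quad k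

/-- `n ≥ 14`, or the points `x` with the property `S` are zeros of a form of degree less than
`n`. -/
def Few (K : Type u) [Field K] (S : (Fin 2 → AlgebraicClosure K) → Prop) (n : ℕ) : Prop :=
  14 ≤ n ∨ ∃ (k : ℕ) (D : MvPolynomial (Fin 2) K), k < n ∧ D.IsHomogeneous k ∧ D ≠ 0 ∧
    ∀ x : Fin 2 → AlgebraicClosure K, x ≠ 0 → S x → aeval x D = 0

/-- The fibration `(w, x, y) ↦ x` has the section `x ↦ (τ(x), x, p(x))`, and few reducible
fibres. -/
def HasSection (F : MvPolynomial (Fin 2 ⊕ Fin 2) K) : Prop :=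
  ∃ (e : ℕ) (p : Fin 2 → MvPolynomial (Fin 2) K) (τ : MvPolynomial (Fin 2) K),
    (∀ i, (p i).IsHomogeneous e) ∧ τ.IsHomogeneous (2 * e + 2) ∧ τ ≠ 0 ∧
    (∀ x : Fin 2 → AlgebraicClosure K, x ≠ 0 → ∃ i, aeval x (p i) ≠ 0) ∧
    aeval (Sum.elim X p) F = τ ^ 2 ∧
    Few K (fun x => ∃ q : Fin 3 → AlgebraicClosure K, ∀ y : Fin 2 → AlgebraicClosure K,
        aeval (Sum.elim x y) F = (q 0 * y 0 ^ 2 + q 1 * (y 0 * y 1) + q 2 * y 1 ^ 2) ^ 2)
      (8 + 4 * e)

/-- The fibration `(w, x, y) ↦ x` is birational to a family of curves of bidegree `(2,2)` with the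
discriminant `T² F`, without lines over the zeros of `T`, and with few lines `g = const`. -/
def HasFamily (F : MvPolynomial (Fin 2 ⊕ Fin 2) K) : Prop :=
  ∃ (s M t : ℕ) (P : Fin 3 → Fin 3 → MvPolynomial (Fin 2) K) (T : MvPolynomial (Fin 2) K),
    2 * s ≤ M ∧ (∀ j k, (P j k).IsHomogeneous (M - s * (2 - k))) ∧
    T.IsHomogeneous t ∧ T ≠ 0 ∧
    formA P 1 ^ 2 - 4 * (formA P 0 * formA P 2) = rename Sum.inl T ^ 2 * F ∧
    (∀ x y : Fin 2 → AlgebraicClosure K, x ≠ 0 → y ≠ 0 → aeval x T = 0 →
      ∃ k, aeval (Sum.elim x y) (formA P k) ≠ 0) ∧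
    (∀ x g : Fin 2 → AlgebraicClosure K, x ≠ 0 → g ≠ 0 → aeval x T = 0 →
      ∃ j, aeval (Sum.elim x g) (formB P j) ≠ 0) ∧
    Few K (fun x => ∃ g : Fin 2 → AlgebraicClosure K, g ≠ 0 ∧
        ∀ j, aeval (Sum.elim x g) (formB P j) = 0) (2 * (M - s))

/-- The ideal of the local Zariski closure `Z_p` at the point `p = (w, x, y)` with values in the
field `L` (via `σ : K → L`): the polynomials in `w`, `x`, `y` which vanish at all representatives
of all the `K`-rational points of `w² = F(x, y)` having a representative in some fixed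
neighbourhood of `p`. -/
def localIdeal (F : MvPolynomial (Fin 2 ⊕ Fin 2) K) {L : Type v} [NontriviallyNormedField L]
    (σ : K →+* L) (w : L) (x y : Fin 2 → L) : Set (MvPolynomial (Option (Fin 2 ⊕ Fin 2)) K) :=
  {f | ∃ U ∈ nhds (w, x, y), ∀ (W : K) (Y Z : Fin 2 → K), Y ≠ 0 → Z ≠ 0 →
    W ^ 2 = eval (Sum.elim Y Z) F →
    (∃ c d : L, c ≠ 0 ∧ d ≠ 0 ∧
      (c ^ 2 * d ^ 2 * σ W, (fun i => c * σ (Y i)), fun i => d * σ (Z i)) ∈ U) →
    ∀ s t : K, eval (fun o => o.elim (s ^ 2 * t ^ 2 * W) (Sum.elim (s • Y) (t • Z))) f = 0}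

end defs

/-- **Mazur's question for K3 surfaces with two fibrations by curves of genus one.** -/
theorem result :
    ∀ (K : Type u) [Field K] [NumberField K] (F : MvPolynomial (Fin 2 ⊕ Fin 2) K),
      -- `F` has the bidegree `(4,4)`
      (∀ m ∈ F.support, m (Sum.inl 0) + m (Sum.inl 1) = 4 ∧ m (Sum.inr 0) + m (Sum.inr 1) = 4) →
      -- the curve `F = 0` in `ℙ¹ × ℙ¹` is smooth
      (∀ x y : Fin 2 → AlgebraicClosure K, x ≠ 0 → y ≠ 0 →
        ∃ t : Fin 2 ⊕ Fin 2, aeval (Sum.elim x y) (pderiv t F) ≠ 0) →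
      -- the conditions for the two fibrations
      (HasSection F ∨ HasFamily F) →
      (HasSection (rename Sum.swap F) ∨ HasFamily (rename Sum.swap F)) →
      -- then, with a finite set `T` of rational points,
      ∃ T : Set (K × (Fin 2 → K) × (Fin 2 → K)), T.Finite ∧
        (∀ P ∈ T, P.2.1 ≠ 0 ∧ P.2.2 ≠ 0 ∧ P.1 ^ 2 = eval (Sum.elim P.2.1 P.2.2) F) ∧
        -- for all completions `L` of `K` and all points `(w, x, y)` of the surface over `L`
        ∀ (L : Type v) [NontriviallyNormedField L] [CompleteSpace L] (σ : K →+* L),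
          DenseRange σ → ∀ (w : L) (x y : Fin 2 → L), x ≠ 0 → y ≠ 0 →
            w ^ 2 = eval₂ σ (Sum.elim x y) F →
            -- the local closure is empty,
            localIdeal F σ w x y = Set.univ ∨
            -- or it is the whole surface,
            localIdeal F σ w x y = {f | X none ^ 2 - rename some F ∣ f} ∨
            -- or it is the single point `(w, x, y)`, which lies in `T`
            ∃ P ∈ T, (∃ c d : L, c ≠ 0 ∧ d ≠ 0 ∧ w = c ^ 2 * d ^ 2 * σ P.1 ∧
                (∀ i, x i = c * σ (P.2.1 i)) ∧ ∀ i, y i = d * σ (P.2.2 i)) ∧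
              localIdeal F σ w x y = {f | ∀ s t : K, eval (fun o =>
                o.elim (s ^ 2 * t ^ 2 * P.1) (Sum.elim (s • P.2.1) (t • P.2.2))) f = 0} := by
  intro K _ _ F hF hs h h'
  obtain ⟨a, rfl⟩ := exists_form hF
  have hs' : SmoothC (fun j i => a i j) := by
    intro x y hx hy
    obtain ⟨t, ht⟩ := hs y x hy hx
    refine ⟨t.swap, ?_⟩
    have hinj : Function.Injective (Sum.swap : Fin 2 ⊕ Fin 2 → Fin 2 ⊕ Fin 2) :=
      Function.Involutive.injective Sum.swap_swap
    rw [← rename_swap_Fp, pderiv_rename hinj, aeval_rename]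
    have e : Sum.elim x y ∘ Sum.swap = Sum.elim y x := by
      funext v
      rcases v with v | v <;> rfl
    rw [e]
    exact ht
  rw [rename_swap_Fp] at h'
  have hd : ∀ a : Fin 5 → Fin 5 → K, SmoothC a → (HasSection (Fp a) ∨ HasFamily (Fp a)) →
      ∃ (s M k1 k2 t : ℕ) (P : Fin 3 → Fin 3 → MvPolynomial (Fin 2) K)
        (T D1 D2 : MvPolynomial (Fin 2) K), FibData a s M k1 k2 t P T D1 D2 := by
    rintro a hs (⟨e, p, τ, h1, h2, h3, h4, h5, h6⟩ | ⟨s, M, t, P, T, h1, h2, h3, h4, h5, h6, h7,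
      h8⟩)
    · have hsec : SecData a e p τ := ⟨h1, h2, h3, h4, h5⟩
      rcases h6 with h | ⟨k, D, g1, g2, g3, g4⟩
      · obtain ⟨k, D, g1, g2, g3, g4⟩ := exists_D (hsm_of_smooth hs)
        exact ⟨_, _, _, _, _, _, _, _, _, hsec.fib hs (hsm_of_smooth hs) g2 g3 (by omega) g4⟩
      · exact ⟨_, _, _, _, _, _, _, _, _, hsec.fib hs (hsm_of_smooth hs) g2 g3 g1 g4⟩
    · rcases h8 with h | ⟨k, D, g1, g2, g3, g4⟩
      · obtain ⟨k, D, g1, g2, g3, g4⟩ := exists_D (hsm_of_smooth hs)
        refine ⟨_, _, _, _, _, _, _, _, _, model_fib hs h1 h2 h3 h4 h5 h6 h7 g2 g3 (by omega) ?_⟩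
        rintro x hx ⟨g, hg, h0⟩
        by_cases hT : aeval x T = 0
        · obtain ⟨j, hj⟩ := h7 x g hx hg hT
          exact absurd (h0 j) hj
        · exact g4 x hx (sq_of_zero h5 hg hT h0)
      · exact ⟨_, _, _, _, _, _, _, _, _, model_fib hs h1 h2 h3 h4 h5 h6 h7 g2 g3 g1 g4⟩
  obtain ⟨s, M, k1, k2, t, P, T, D1, D2, hf⟩ := hd a hs h
  obtain ⟨s', M', k1', k2', t', P', T', D1', D2', hf'⟩ := hd _ hs' h'
  obtain ⟨T, hT, hT1, hT2⟩ := main_data hf hf'
  refine ⟨T, hT, ?_, ?_⟩
  · intro P hP
    obtain ⟨h1, h2, h3⟩ := hT1 P hP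
    exact ⟨h1, h2, by rw [eval_Fp]; exact h3⟩
  · intro L _ _ σ hσ w x y hx hy _
    have hJ : localIdeal (Fp a) σ w x y = Jx a σ (w, x, y) := by
      ext f
      constructor
      · rintro ⟨U, hU, hf⟩
        refine ⟨U, hU, fun W Y Z hp => hf W Y Z hp.1 hp.2.1 ?_ hp.2.2.2⟩
        rw [eval_Fp]
        exact hp.2.2.1
      · rintro ⟨U, hU, hf⟩
        refine ⟨U, hU, fun W Y Z h1 h2 h3 h4 => hf W Y Z ⟨h1, h2, ?_, h4⟩⟩
        rw [eval_Fp] at h3
        exact h3
    rw [hJ]
    rcases hT2 L σ hσ (w, x, y) hx hy with h | h | ⟨P, hP, hPx, h⟩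
    · exact Or.inl h
    · exact Or.inr (Or.inl h)
    · refine Or.inr (Or.inr ⟨P, hP, ?_, h⟩)
      obtain ⟨c, d, hc, hd, e1, e2, e3⟩ := hPx
      exact ⟨c, d, hc, hd, e1, fun i => congrFun e2 i, fun i => congrFun e3 i⟩

end Pool.Agent.Results.MP_f9f755_nt.TwoFibrationsK3
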