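import Pool.Agent.H58U.Cls
import Pool.Agent.H58U.Bnd
import Pool.Agent.H58U.Br

set_option autoImplicit false

/-!
# Mazur's question for the double covers of `(ℙ¹)ⁿ` with smooth branch divisor of multidegree `(4,…,4)`,
# uniformly in all quadratic twists, all extensions of bounded degree and all places

`K` is a number field and `F` a form of degree `4` in each of the `n` pairs of variables `x_{j,0}`, `x_{j,1}` such
that the divisor `F = 0` in `(ℙ¹)ⁿ` is smooth; the double covers `X_e : w² = e F(x)` are Calabi-Yau varieties, for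
`n = 2` these are K3 surfaces. For `n ≠ 2` it is assumed that over the algebraic closure there are only finitely many
special planes (a dimension count suggests that general `F` have none; for `n = 2` this is proved). For every `D` there are a number `N`
and a finite set `T` such that for ALL extensions `L` of `K` of degree at most `D`, ALL `e ∈ Lˣ` and ALL completions
`M` of `L`:

1. the local closure (`Z_x` in the problem) at an `M`-point of `X_e` with `w ≠ 0` is empty, or it is this point, and
   the point is an `L`-point over `T`, or it is a union of parts of `X_e` over special planes through the point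
   (the whole space is one of the special planes);
2. the number of the local closures at the points with `w ≠ 0` is at most `N`;
3. the number of all local closures is at most `N (b + 1)`, if the number of the local closures of the branch divisor
   `F = 0` over `L`, `M` is at most `b`;
4. it is at most `N (m + 2)` if the branch divisor has at most `m` points over `L` (for `n = 2` it is a curve of
   genus `9` and this is the case for some `m` by the theorem of Faltings).

Proof. The heights of the points of degree at most `D` which are torsion in all directions are bounded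
(`Pool.Agent.Q35.TB`), independently of the twist; the rational points which are not torsion in all directions move
in special planes (`Pool.Agent.Q35.TT`, `Pool.Agent.Q224.TT`); the special planes over `L` are special planes over
the algebraic closure. A local closure off the branch divisor is determined by the subset of the special planes which
carry dense sets of rational points arbitrarily near to the point, and by the points over `T` equal to the point.
-/

open MvPolynomial

namespace Pool.Agent.Results.MP_f9f755_nt.UniformDoubleCovers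

section defs

variable {K : Type} [Field K] {n : ℕ}

/-- `F` is a form of degree `4` in each pair of variables `(j, 0)`, `(j, 1)`. -/
def IsForm (F : MvPolynomial (Fin n × Fin 2) K) : Prop :=
  ∀ m ∈ F.support, ∀ j, m (j, 0) + m (j, 1) = 4

/-- The divisor `F = 0` in `(ℙ¹)ⁿ` is smooth. -/
def Smooth (F : MvPolynomial (Fin n × Fin 2) K) : Prop :=
  ∀ x : Fin n × Fin 2 → AlgebraicClosure K, (∀ j, ∃ b, x (j, b) ≠ 0) → ∃ p, aeval x (pderiv p F) ≠ 0

/-- The polynomial `F` over the extension `L` of `K`. -/
noncomputable def ext (L : Type) [Field L] [Algebra K L] (F : MvPolynomial (Fin n × Fin 2) K) :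
    MvPolynomial (Fin n × Fin 2) L := map (algebraMap K L) F

/-- The plane through the point `X` in the directions of `J` is special: on it the derivatives of `F` in the other
directions are constant multiples of `F`. (For `J = univ` the plane is the whole space and this is no condition.) -/
def Special (F : MvPolynomial (Fin n × Fin 2) K) (J : Finset (Fin n)) (X : Fin n × Fin 2 → K) : Prop :=
  ∀ k, k ∉ J → ∀ b, ∃ c : K, ∀ Y : Fin n × Fin 2 → K, (∀ j, j ∉ J → ∀ b, Y (j, b) = X (j, b)) →
    eval Y (pderiv (k, b) F) = c * eval Y F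

/-- There are only finitely many special planes through points with `F ≠ 0`, apart from the whole space. -/
def FinSpecial (F : MvPolynomial (Fin n × Fin 2) K) : Prop :=
  ∀ J : Finset (Fin n), J.Nonempty → J ≠ Finset.univ →
    {P : Set (Fin n × Fin 2 → K) | ∃ X, eval X F ≠ 0 ∧ Special F J X ∧
      P = {Y | ∀ j, j ∉ J → ∃ a : K, a ≠ 0 ∧ ∀ b, Y (j, b) = a * X (j, b)}}.Finite

/-- The ideal of the part of `w² = G` over the plane through `X` in the directions of `J` (`none` is `w`). -/
def planeIdeal (G : MvPolynomial (Fin n × Fin 2) K) (J : Finset (Fin n)) (X₀ : Fin n × Fin 2 → K) :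
    Set (MvPolynomial (Option (Fin n × Fin 2)) K) :=
  {g | ∃ (A B : MvPolynomial (Fin n × Fin 2) K) (Q : MvPolynomial (Option (Fin n × Fin 2)) K),
    g = rename some A + X none * rename some B + (X none ^ 2 - rename some G) * Q ∧
    ∀ Y : Fin n × Fin 2 → K, (∀ k, k ∉ J → ∃ a : K, ∀ b, Y (k, b) = a * X₀ (k, b)) →
      eval Y A = 0 ∧ eval Y B = 0}

/-- The ideal of the point with the coordinates `W`, `X`. -/
def pointIdeal (W : K) (X : Fin n × Fin 2 → K) : Set (MvPolynomial (Option (Fin n × Fin 2)) K) :=
  {g | ∀ a : Fin n → K, eval (fun o => o.elim ((∏ j, a j) ^ 2 * W) fun p => a p.1 * X p) g = 0}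

variable {L : Type} [NontriviallyNormedField L]

/-- The ideal of the local closure of the `K`-points of `w² = G` at the point `(w, x)` over the completion `L`: the
polynomials in the coordinates (`none` is `w`) which vanish at all coordinate vectors of all `K`-points of `w² = G`
which have a coordinate vector over `L` in some fixed neighbourhood of `(w, x)`. -/
def localIdeal (σ : K →+* L) (G : MvPolynomial (Fin n × Fin 2) K) (w : L) (x : Fin n × Fin 2 → L) :
    Set (MvPolynomial (Option (Fin n × Fin 2)) K) :=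
  {g | ∃ U ∈ nhds (w, x), ∀ (W : K) (X : Fin n × Fin 2 → K), (∀ j, ∃ b, X (j, b) ≠ 0) →
    W ^ 2 = eval X G → (∃ a : Fin n → L, (∀ j, a j ≠ 0) ∧
      ((∏ j, a j) ^ 2 * σ W, fun p => a p.1 * σ (X p)) ∈ U) →
    ∀ a : Fin n → K, eval (fun o => o.elim ((∏ j, a j) ^ 2 * W) fun p => a p.1 * X p) g = 0}

/-- The same for the divisor `F = 0` in `(ℙ¹)ⁿ`. -/
def branchIdeal (σ : K →+* L) (F : MvPolynomial (Fin n × Fin 2) K) (x : Fin n × Fin 2 → L) :
    Set (MvPolynomial (Fin n × Fin 2) K) :=
  {g | ∃ U ∈ nhds x, ∀ X : Fin n × Fin 2 → K, (∀ j, ∃ b, X (j, b) ≠ 0) → eval X F = 0 →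
    (∃ a : Fin n → L, (∀ j, a j ≠ 0) ∧ (fun p => a p.1 * σ (X p)) ∈ U) →
    ∀ a : Fin n → K, eval (fun p => a p.1 * X p) g = 0}

/-- All ideals of local closures of `w² = G` at points with `w ≠ 0`. -/
def offIdeals (σ : K →+* L) (G : MvPolynomial (Fin n × Fin 2) K) :
    Set (Set (MvPolynomial (Option (Fin n × Fin 2)) K)) :=
  {I | ∃ (w : L) (x : Fin n × Fin 2 → L), w ≠ 0 ∧ w ^ 2 = eval₂ σ x G ∧ I = localIdeal σ G w x}

/-- All ideals of local closures of `w² = G`. -/
def allIdeals (σ : K →+* L) (G : MvPolynomial (Fin n × Fin 2) K) :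
    Set (Set (MvPolynomial (Option (Fin n × Fin 2)) K)) :=
  {I | ∃ (w : L) (x : Fin n × Fin 2 → L), (∀ j, ∃ b, x (j, b) ≠ 0) ∧ w ^ 2 = eval₂ σ x G ∧
    I = localIdeal σ G w x}

/-- All ideals of local closures of the divisor `F = 0` in `(ℙ¹)ⁿ`. -/
def branchIdeals (σ : K →+* L) (F : MvPolynomial (Fin n × Fin 2) K) :
    Set (Set (MvPolynomial (Fin n × Fin 2) K)) :=
  {I | ∃ x : Fin n × Fin 2 → L, (∀ j, ∃ b, x (j, b) ≠ 0) ∧ eval₂ σ x F = 0 ∧ I = branchIdeal σ F x}

/-- All `K`-points of the divisor `F = 0` in `(ℙ¹)ⁿ` are given by coordinate vectors in the finite set `S`. -/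
def Covers (S : Finset (Fin n × Fin 2 → K)) (F : MvPolynomial (Fin n × Fin 2) K) : Prop :=
  ∀ X : Fin n × Fin 2 → K, (∀ j, ∃ b, X (j, b) ≠ 0) → eval X F = 0 →
    ∃ t ∈ S, ∃ c : Fin n → K, X = fun p => c p.1 * t p

/-- The point `(w, x)` of `w² = G` over the completion `L` of `K` is a `K`-point `(W, X)` over the set `T` of
coordinate vectors over the algebraic closure of the subfield `k` of `K`, and the local closure is this point. -/
def PointCase (k : Type) [Field k] [Algebra k K] (T : Set (Fin n × Fin 2 → AlgebraicClosure k)) (σ : K →+* L)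
    (G : MvPolynomial (Fin n × Fin 2) K) (w : L) (x : Fin n × Fin 2 → L) : Prop :=
  ∃ (W : K) (X : Fin n × Fin 2 → K), (∀ φ : K →ₐ[k] AlgebraicClosure k, (fun p => φ (X p)) ∈ T) ∧
    W ^ 2 = eval X G ∧
    (∃ a : Fin n → L, (∀ j, a j ≠ 0) ∧ w = (∏ j, a j) ^ 2 * σ W ∧ x = fun p => a p.1 * σ (X p)) ∧
    localIdeal σ G w x = pointIdeal W X

/-- The local closure of `w² = e F` at the point `(w, x)` is the union of the parts over some special planes
(given by directions and a point; the whole space is allowed) which contain the point `x`. -/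
def PlaneCase (σ : K →+* L) (F : MvPolynomial (Fin n × Fin 2) K) (e : K) (w : L) (x : Fin n × Fin 2 → L) : Prop :=
  ∃ E : Set (Finset (Fin n) × (Fin n × Fin 2 → K)), E.Nonempty ∧
    (∀ q ∈ E, q.1.Nonempty ∧ eval q.2 F ≠ 0 ∧ Special F q.1 q.2 ∧
      ∀ k, k ∉ q.1 → ∃ a : L, a ≠ 0 ∧ ∀ b, x (k, b) = a * σ (q.2 (k, b))) ∧
    localIdeal σ (C e * F) w x = ⋂ q ∈ E, planeIdeal (C e * F) q.1 q.2

end defs

/-- **Theorem.** -/
theorem result (K : Type) [Field K] [NumberField K] (n : ℕ) (F : MvPolynomial (Fin n × Fin 2) K) (hF : IsForm F)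
    (hS : Smooth F) (hfin : n = 2 ∨ FinSpecial (ext (AlgebraicClosure K) F)) (D : ℕ) :
    ∃ (N : ℕ) (T : Set (Fin n × Fin 2 → AlgebraicClosure K)), T.Finite ∧
      ∀ (L : Type) [Field L] [NumberField L] [Algebra K L], Module.finrank K L ≤ D → ∀ e : L, e ≠ 0 →
      ∀ (M : Type) [NontriviallyNormedField M] [CompleteSpace M] (σ : L →+* M), DenseRange σ →
      -- (1) the local closures at the points with `w ≠ 0`
      (∀ (w : M) (x : Fin n × Fin 2 → M), w ≠ 0 → w ^ 2 = eval₂ σ x (C e * ext L F) →
        localIdeal σ (C e * ext L F) w x = Set.univ ∨ PointCase K T σ (C e * ext L F) w x ∨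
          PlaneCase σ (ext L F) e w x) ∧
      -- (2) their number
      (offIdeals σ (C e * ext L F)).encard ≤ N ∧
      -- (3) the number of all local closures
      (∀ b : ℕ, (branchIdeals σ (ext L F)).encard ≤ b →
        (allIdeals σ (C e * ext L F)).encard ≤ ((N * (b + 1) : ℕ) : ℕ∞)) ∧
      -- (4) the same if the branch divisor has at most `m` points over `L`
      ∀ S : Finset (Fin n × Fin 2 → L), Covers S (ext L F) →
        (allIdeals σ (C e * ext L F)).encard ≤ ((N * (S.card + 2) : ℕ) : ℕ∞) := by
  classical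
  have hF' : Pool.Agent.Q35.TT.Hom4 F := hF
  have hS' : Pool.Agent.Q35.TT.SmoothF F := hS
  have hfin' : Pool.Agent.Q35.TT.FinSpecF (Pool.Agent.Q35.TB.ex (AlgebraicClosure K) F) := by
    rcases hfin with rfl | hfin
    · obtain ⟨e1, e2, -⟩ := Pool.Agent.Q35.TB.exf2 K (AlgebraicClosure K) 2 F hF'
      exact Pool.Agent.Q35.TT.fsf2 (AlgebraicClosure K) _ e1 (e2.1 hS')
    · exact hfin
  obtain ⟨N1, N2, T, hT, hun⟩ := Pool.Agent.H58U.unif K n F hF' hS' hfin' D
  refine ⟨∑ ε, 2 ^ N1 ε * 2 ^ N2 ε, ⋃ ε : Fin n → Fin 2, Pool.Agent.Q35.TT.pt ε '' T ε,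
    Set.finite_iUnion fun ε => (hT ε).image _, ?_⟩
  intro L _ _ _ hD e he M _ _ σ hσ
  have hfd : Module.Finite K L := Module.Finite.of_restrictScalars_finite ℚ K L
  have halg : Algebra.IsAlgebraic K L := Algebra.IsAlgebraic.of_finite K L
  obtain ⟨e1, e2, -, -, -⟩ := Pool.Agent.Q35.TB.exf2 K L n F hF'
  have hSL : Pool.Agent.Q35.TT.SmoothF (Pool.Agent.Q35.TB.ex L F) := e2.1 hS'
  have hcla := Pool.Agent.Q35.TT.cla_of Pool.Agent.Q35.TT.orn2
  have hchf := Pool.Agent.Q182.TT.CHF.chf
  have hinv := Pool.Agent.Q35.TB.inv2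
  have hproj := Pool.Agent.H58U.proj hcla Pool.Agent.Q224.TT.nsq hchf hinv (Pool.Agent.Q35.TB.ex L F) e1 hSL e he
    N1 N2 (fun ε => (hun L hD e he ε).1) (fun ε => (hun L hD e he ε).2.1) σ hσ
  obtain ⟨-, p2, p3⟩ := hproj
  refine ⟨?_, p2, p3, ?_⟩
  · intro w x hw hs
    rcases Pool.Agent.H58U.cls hcla Pool.Agent.Q224.TT.nsq hchf hinv (Pool.Agent.Q35.TB.ex L F) e1 hSL e he
      (fun ε => Set.finite_of_encard_le_coe (hun L hD e he ε).1)
      (fun ε => Set.finite_of_encard_le_coe (hun L hD e he ε).2.1) σ hσ w x hw hs with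
      h | ⟨ε, z, W, hz, hW, ha, hI⟩ | ⟨E, hE1, hE2, hI⟩
    · exact Or.inl h
    · right
      left
      refine ⟨W, Pool.Agent.Q35.TT.pt ε z, fun φ => ?_, hW, ha, hI⟩
      rw [Set.mem_iUnion]
      refine ⟨ε, fun j => φ (z j), (hun L hD e he ε).2.2 z hz φ, ?_⟩
      funext p
      exact (Pool.Agent.Q68.TT.Mzf.pt_map (φ : L →+* AlgebraicClosure K) ε z p).symm
    · exact Or.inr (Or.inr ⟨E, hE1, hE2, hI⟩)
  · intro S hSX
    have hcl : CharZero M := charZero_of_injective_ringHom σ.injective
    have hFM : Pool.Agent.Q35.TT.Hom4 (MvPolynomial.map σ (Pool.Agent.Q35.TB.ex L F)) :=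
      fun m hm => e1 m (support_map_subset σ _ hm)
    have sM : ∀ (x : Fin n × Fin 2 → M) (a : Fin n → M),
        eval₂ σ (fun p => a p.1 * x p) (Pool.Agent.Q35.TB.ex L F) =
        (∏ j, a j) ^ 4 * eval₂ σ x (Pool.Agent.Q35.TB.ex L F) := by
      intro x a
      have := (hchf M n _ hFM (fun _ => 0)).2.2.2.2.2.1 x a
      rwa [eval_map, eval_map] at this
    exact p3 (S.card + 1) (Pool.Agent.H58U.locB_card σ _ S sM hSX)

end Pool.Agent.Results.MP_f9f755_nt.UniformDoubleCovers
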